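import Pool.Agent.Y92.ZX.Stm

/-!
# Project ZX: finiteness of the intersections with special subvarieties (block FIN)
-/

set_option autoImplicit false
set_option linter.unusedSectionVars false

open UpperHalfPlane H294ZP Polynomial

namespace Pool.Agent.Y219.ZX

open Pool.Agent.Y226 Pool.Agent.Y226.ZG Pool.Agent.Y226.ZM Pool.Agent.Y226.ZU Pool.Agent.Y92.ZX

variable {n : ℕ}

lemma chv_none {A : Type} [CommRing A] (y : Fin n → A) (q : Fin n × Bool) :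
    chv none y q = if q.2 then 1 else y q.1 := by
  unfold chv
  rw [if_neg (by simp)]

/-- dehomogenization -/
noncomputable def psi : MvPolynomial (Fin n × Bool) QA →+* MvPolynomial (Fin n) QA :=
  MvPolynomial.eval₂Hom MvPolynomial.C (chv none MvPolynomial.X)

lemma psi_C (c : QA) : psi (n := n) (MvPolynomial.C c) = MvPolynomial.C c := by
  unfold psi
  rw [MvPolynomial.eval₂Hom_C]

lemma psi_X (q : Fin n × Bool) : psi (MvPolynomial.X q) = if q.2 then 1 else MvPolynomial.X q.1 := by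
  unfold psi
  rw [MvPolynomial.eval₂Hom_X', chv_none]

lemma eval_psi (y : Fin n → ℂ) (f : MvPolynomial (Fin n × Bool) QA) :
    MvPolynomial.eval₂ rA y (psi f) = MvPolynomial.eval₂ rA (chv none y) f := by
  have e : (MvPolynomial.eval₂Hom rA y).comp psi = MvPolynomial.eval₂Hom rA (chv none y) := by
    apply MvPolynomial.ringHom_ext
    · intro c
      rw [RingHom.comp_apply, psi_C, MvPolynomial.eval₂Hom_C, MvPolynomial.eval₂Hom_C]
    · rintro ⟨i, b⟩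
      rw [RingHom.comp_apply, psi_X, MvPolynomial.eval₂Hom_X', chv_none]
      cases b
      · simp
      · simp
  exact congrArg (fun φ : MvPolynomial (Fin n × Bool) QA →+* ℂ => φ f) e

lemma psi_bh (i j : Fin n) (a b : ℕ) (g : ℕ → ℕ → QA) : psi (bh i j a b g) =
    ∑ u ∈ Finset.range (a + 1), ∑ v ∈ Finset.range (b + 1),
      MvPolynomial.C (g u v) * MvPolynomial.X i ^ u * MvPolynomial.X j ^ v := by
  unfold bh
  rw [map_sum]
  refine Finset.sum_congr rfl fun u _ => ?_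
  rw [map_sum]
  refine Finset.sum_congr rfl fun v _ => ?_
  simp only [map_mul, map_pow, psi_C, psi_X]
  simp

/-- relations between the coordinates -/
def Rel (𝔮 : Ideal (MvPolynomial (Fin n) QA)) : Prop :=
  ∀ i j : Fin n, i ≠ j → ∃ (a b : ℕ) (g : ℕ → ℕ → QA), g 0 0 ≠ 0 ∧ g a 0 ≠ 0 ∧ g 0 b ≠ 0 ∧
    g a b ≠ 0 ∧ (∀ c : QA, ∃ v ≤ b, ∑ u ∈ Finset.range (a + 1), g u v * c ^ u ≠ 0) ∧
    ∑ u ∈ Finset.range (a + 1), ∑ v ∈ Finset.range (b + 1),
      MvPolynomial.C (g u v) * MvPolynomial.X i ^ u * MvPolynomial.X j ^ v ∈ 𝔮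

/-- a root of a polynomial over an algebraically closed field -/
lemma root_aux {D : Type} [CommRing D] [IsDomain D] (φ : QA →+* D) (z : D) (a b : ℕ)
    (g : ℕ → ℕ → QA) (c : QA)
    (hv : ∃ v ≤ b, ∑ u ∈ Finset.range (a + 1), g u v * c ^ u ≠ 0)
    (h : ∑ v ∈ Finset.range (b + 1), ∑ u ∈ Finset.range (a + 1),
      φ (g u v) * φ c ^ u * z ^ v = 0) : ∃ d : QA, z = φ d := by
  set r : QA[X] := ∑ v ∈ Finset.range (b + 1),
    C (∑ u ∈ Finset.range (a + 1), g u v * c ^ u) * X ^ v with hr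
  have hr0 : r ≠ 0 := by
    obtain ⟨v, hvb, hv0⟩ := hv
    intro h0
    apply hv0
    have h1 : r.coeff v = ∑ u ∈ Finset.range (a + 1), g u v * c ^ u := by
      rw [hr, finset_sum_coeff]
      simp only [coeff_C_mul, coeff_X_pow, mul_ite, mul_one, mul_zero]
      rw [Finset.sum_ite_eq, if_pos (Finset.mem_range.2 (by omega))]
    rw [← h1, h0, coeff_zero]
  have hr1 : r.eval₂ φ z = 0 := by
    rw [hr, eval₂_finsetSum, ← h]
    refine Finset.sum_congr rfl fun v _ => ?_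
    rw [eval₂_mul, eval₂_C, eval₂_X_pow, map_sum, Finset.sum_mul]
    refine Finset.sum_congr rfl fun u _ => ?_
    rw [map_mul, map_pow]
  exact root_const φ hr0 hr1

/-- one coordinate is constant -/
lemma case1 (𝔮 : Ideal (MvPolynomial (Fin n) QA)) [h𝔮 : 𝔮.IsPrime] (h : Rel 𝔮) {i : Fin n} {c : QA}
    (hic : MvPolynomial.X i - MvPolynomial.C c ∈ 𝔮) :
    ∃ s : Fin n → QA, ∀ y ∈ VC 𝔮, (fun l => rA (s l)) = y := by
  have key : ∀ l : Fin n, ∃ d : QA, MvPolynomial.X l - MvPolynomial.C d ∈ 𝔮 := by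
    intro l
    by_cases hli : i = l
    · exact ⟨c, hli ▸ hic⟩
    obtain ⟨a, b, g, -, -, -, -, hv, hmem⟩ := h i l hli
    have hxi : Ideal.Quotient.mk 𝔮 (MvPolynomial.X i) =
        Ideal.Quotient.mk 𝔮 (MvPolynomial.C c) := by
      have h1 := Ideal.Quotient.eq_zero_iff_mem.2 hic
      rw [map_sub, sub_eq_zero] at h1
      exact h1
    obtain ⟨d, hd⟩ := root_aux ((Ideal.Quotient.mk 𝔮).comp MvPolynomial.C)
      (Ideal.Quotient.mk 𝔮 (MvPolynomial.X l)) a b g c (hv c) (by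
        have h1 := Ideal.Quotient.eq_zero_iff_mem.2 hmem
        rw [Finset.sum_comm, map_sum] at h1
        rw [← h1]
        refine Finset.sum_congr rfl fun v _ => ?_
        rw [map_sum]
        refine Finset.sum_congr rfl fun u _ => ?_
        rw [map_mul, map_mul, map_pow, map_pow, hxi]
        rfl)
    refine ⟨d, Ideal.Quotient.eq_zero_iff_mem.1 ?_⟩
    rw [map_sub, sub_eq_zero]
    exact hd
  choose s hs using key
  refine ⟨s, fun y hy => funext fun l => ?_⟩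
  have h1 := hy _ (hs l)
  rw [MvPolynomial.eval₂_sub, MvPolynomial.eval₂_X, MvPolynomial.eval₂_C, sub_eq_zero] at h1
  exact h1.symm

/-- no coordinate is constant -/
lemma case2 (𝔮 : Ideal (MvPolynomial (Fin n) QA)) [h𝔮 : 𝔮.IsPrime] (h : Rel 𝔮)
    (hc : ∀ (i : Fin n) (c : QA), MvPolynomial.X i - MvPolynomial.C c ∉ 𝔮) :
    (∀ f ∉ 𝔮, {y | y ∈ VC 𝔮 ∧ MvPolynomial.eval₂ rA y f = 0}.Finite ∧
      ∀ y ∈ VC 𝔮, MvPolynomial.eval₂ rA y f = 0 → ∃ s : Fin n → QA, (fun i => rA (s i)) = y) ∧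
    ∀ lam mu : Fin n → QA, (∀ i, lam i ≠ 0) → ∀ j k : Fin n, j ≠ k → ∀ N : ℕ, 0 < N →
      PsiMA lam mu j k N ∉ 𝔮 := by
  classical
  obtain ⟨𝔽, _, _, x, hx1, hx2⟩ := ff_of_prime 𝔮
  obtain ⟨𝒞, h𝒞⟩ := exists_GP x hx1 (fun i => by
      intro halg
      obtain ⟨r, hr, hr0⟩ := halg
      obtain ⟨c, hc'⟩ := root_const (algebraMap QA 𝔽) hr hr0
      apply hc i c
      rw [← hx2, map_sub, MvPolynomial.aeval_X, MvPolynomial.aeval_C, hc', sub_self])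
    (fun i j hij => by
      obtain ⟨a, b, g, h1, h2, h3, h4, -, h5⟩ := h i j hij
      refine ⟨a, b, mkG a b g, mkG_cor h1 h2 h3 h4, ?_⟩
      rw [← E2_mkG, ← hx2, aeval_E2, MvPolynomial.aeval_X, MvPolynomial.aeval_X] at h5
      exact h5)
  subst h𝒞
  refine ⟨fun f hf => ⟨zeros_finite 𝒞 hx2 hf, fun y hy hfy => ?_⟩,
    fun lam mu hlam j k hjk N hN => psi_notMem 𝒞 hx2 hlam hjk hN⟩
  obtain ⟨s, hs, -⟩ := zeros_alg 𝒞 hx2 hf y hy hfy
  exact ⟨s, hs⟩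

/-- both cases -/
lemma dich (𝔮 : Ideal (MvPolynomial (Fin n) QA)) [h𝔮 : 𝔮.IsPrime] (h : Rel 𝔮)
    (E : Set (Fin n → ℂ))
    (hE : (∀ (i : Fin n) (c : QA), MvPolynomial.X i - MvPolynomial.C c ∉ 𝔮) →
      (∀ lam mu : Fin n → QA, (∀ i, lam i ≠ 0) → ∀ j k : Fin n, j ≠ k → ∀ N : ℕ, 0 < N →
        PsiMA lam mu j k N ∉ 𝔮) → ∃ f, f ∉ 𝔮 ∧ ∀ y ∈ E, MvPolynomial.eval₂ rA y f = 0) :
    {y | y ∈ VC 𝔮 ∧ y ∈ E}.Finite ∧ ∀ y ∈ VC 𝔮, y ∈ E → ∃ s : Fin n → QA,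
      (fun i => rA (s i)) = y := by
  by_cases hc : ∀ (i : Fin n) (c : QA), MvPolynomial.X i - MvPolynomial.C c ∉ 𝔮
  · obtain ⟨h1, h2⟩ := case2 𝔮 h hc
    obtain ⟨f, hf, hfE⟩ := hE hc h2
    obtain ⟨h3, h4⟩ := h1 f hf
    exact ⟨h3.subset fun y hy => ⟨hy.1, hfE y hy.2⟩, fun y hy hyE => h4 y hy (hfE y hyE)⟩
  · push Not at hc
    obtain ⟨i, c, hic⟩ := hc
    obtain ⟨s, hs⟩ := case1 𝔮 h hic
    exact ⟨(Set.finite_singleton (fun l => rA (s l))).subset fun y hy => (hs y hy.1).symm,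
      fun y hy _ => ⟨s, hs y hy⟩⟩

/-- all components -/
lemma comps {κ : Type} (F : κ → MvPolynomial (Fin n × Bool) QA)
    (hg : ∀ i j : Fin n, i ≠ j → ∃ (a b : ℕ) (g : ℕ → ℕ → QA), g 0 0 ≠ 0 ∧ g a 0 ≠ 0 ∧
      g 0 b ≠ 0 ∧ g a b ≠ 0 ∧ (∀ c : QA, ∃ v ≤ b, ∑ u ∈ Finset.range (a + 1), g u v * c ^ u ≠ 0) ∧
      bh i j a b g ∈ Ideal.span (Set.range F)) (E : Set (Fin n → ℂ))
    (hE : ∀ 𝔮 : Ideal (MvPolynomial (Fin n) QA), 𝔮.IsPrime →
      (∀ (i : Fin n) (c : QA), MvPolynomial.X i - MvPolynomial.C c ∉ 𝔮) →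
      (∀ lam mu : Fin n → QA, (∀ i, lam i ≠ 0) → ∀ j k : Fin n, j ≠ k → ∀ N : ℕ, 0 < N →
        PsiMA lam mu j k N ∉ 𝔮) → ∃ f, f ∉ 𝔮 ∧ ∀ y ∈ E, MvPolynomial.eval₂ rA y f = 0) :
    {y | y ∈ VF F ∧ y ∈ E}.Finite ∧ ∀ y ∈ VF F, y ∈ E → ∃ s : Fin n → QA,
      (fun i => rA (s i)) = y := by
  set I : Ideal (MvPolynomial (Fin n) QA) := (Ideal.span (Set.range F)).map psi with hI
  have hRel : ∀ 𝔮 : Ideal (MvPolynomial (Fin n) QA), I ≤ 𝔮 → Rel 𝔮 := by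
    intro 𝔮 h𝔮 i j hij
    obtain ⟨a, b, g, h1, h2, h3, h4, h5, h6⟩ := hg i j hij
    refine ⟨a, b, g, h1, h2, h3, h4, h5, h𝔮 ?_⟩
    rw [← psi_bh]
    exact Ideal.mem_map_of_mem psi h6
  have hmin : ∀ y ∈ VF F, ∃ 𝔮 ∈ I.minimalPrimes, y ∈ VC 𝔮 := by
    intro y hy
    have h1 : I ≤ RingHom.ker (MvPolynomial.eval₂Hom rA y) := by
      rw [hI, Ideal.map_le_iff_le_comap, Ideal.span_le]
      rintro _ ⟨t, rfl⟩
      show MvPolynomial.eval₂Hom rA y (psi (F t)) = 0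
      show MvPolynomial.eval₂ rA y (psi (F t)) = 0
      rw [eval_psi]
      exact hy t
    have : (RingHom.ker (MvPolynomial.eval₂Hom rA y)).IsPrime := RingHom.ker_isPrime _
    obtain ⟨𝔮, h𝔮, hle⟩ := Ideal.exists_minimalPrimes_le h1
    exact ⟨𝔮, h𝔮, fun f hf => hle hf⟩
  have hfin : I.minimalPrimes.Finite := Ideal.finite_minimalPrimes_of_isNoetherianRing _ I
  have hd : ∀ 𝔮 ∈ I.minimalPrimes, {y | y ∈ VC 𝔮 ∧ y ∈ E}.Finite ∧
      ∀ y ∈ VC 𝔮, y ∈ E → ∃ s : Fin n → QA, (fun i => rA (s i)) = y := by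
    intro 𝔮 h𝔮
    have : 𝔮.IsPrime := h𝔮.1.1
    exact dich 𝔮 (hRel 𝔮 h𝔮.1.2) E (hE 𝔮 h𝔮.1.1)
  refine ⟨?_, fun y hy hyE => ?_⟩
  · refine Set.Finite.subset (hfin.biUnion fun 𝔮 h𝔮 => (hd 𝔮 h𝔮).1) ?_
    rintro y ⟨hy, hyE⟩
    obtain ⟨𝔮, h𝔮, hyq⟩ := hmin y hy
    exact Set.mem_biUnion h𝔮 ⟨hyq, hyE⟩
  · obtain ⟨𝔮, h𝔮, hyq⟩ := hmin y hy
    exact (hd 𝔮 h𝔮).2 y hyq hyE

theorem fin : S_FIN := by
  classical
  intro n κ F hg lam hlam
  refine ⟨fun j l hjl N hN => ?_, fun Γ r Z hr hconst => ?_⟩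
  · refine (comps F hg {y | PsiE ιZ (mP N) (mD N) (rA (lam j) * y j) (rA (lam l) * y l) = 0}
      fun 𝔮 _ _ hpsi => ⟨PsiMA lam 0 j l N, hpsi lam 0 hlam j l hjl N hN, fun y hy => ?_⟩).1
    rw [PsiMA_eval₂]
    have h0 : ∀ i : Fin n, rA ((0 : Fin n → QA) i) = 0 := fun i => map_zero rA
    rw [h0, h0, add_zero, add_zero]
    exact hy
  · obtain ⟨h1, h2⟩ := comps F hg {y | (fun i => rA (lam i) * y i) ∈ Z.locus}
      fun 𝔮 _ hc hpsi => by
        by_cases hall : ∃ i, Z.cls i = none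
        · obtain ⟨i, hi⟩ := hall
          obtain ⟨c, hc'⟩ := hconst i
          refine ⟨_, hc i (c / lam i), fun y hy => ?_⟩
          have h1 : rA (lam i) * y i = Z.const i := by
            obtain ⟨w, hw⟩ := hy
            exact (hw i).1 hi
          rw [MvPolynomial.eval₂_sub, MvPolynomial.eval₂_X, MvPolynomial.eval₂_C, map_div₀, hc',
            ← h1]
          have : rA (lam i) ≠ 0 := fun h => hlam i ((map_eq_zero rA).1 h)
          rw [mul_div_cancel_left₀ _ this, sub_self]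
        · push Not at hall
          obtain ⟨j, -, k, -, hjk, hcl⟩ := coll Z.cls Finset.univ (by simpa using hr)
            (fun x _ => hall x)
          obtain ⟨N, hN, hΨ⟩ := coll_psi (lam := lam) (mu := 0) Z hcl
          refine ⟨_, hpsi lam 0 hlam j k hjk N hN, fun y hy => hΨ y ?_⟩
          have h0 : (fun i => rA (lam i) * y i + rA ((0 : Fin n → QA) i)) =
              fun i => rA (lam i) * y i := by
            funext i
            have h3 : rA ((0 : Fin n → QA) i) = 0 := map_zero rA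
            rw [h3, add_zero]
          rw [h0]
          exact hy
    exact ⟨h1, fun y hy hyZ => by
      obtain ⟨s, hs⟩ := h2 y hy hyZ
      exact ⟨s, fun i => congrFun hs i⟩⟩

end Pool.Agent.Y219.ZX
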